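import Pool.Agent.Q157.OM.Stm

/-!
# Project OM (helper157), jobs el, mono, word, bal
-/

set_option autoImplicit false

namespace Pool.Agent.Q149.OM

open Finset Pool.Agent.Q157.OM

theorem el_eq (e : Finset ℕ) {r : ℕ} (h : e.card = r) (i : Fin r) :
    el e i = e.orderEmbOfFin h i := by
  rw [Finset.orderEmbOfFin_apply]
  unfold el
  rw [List.getD_eq_getElem?_getD, List.getElem?_eq_getElem (by rw [Finset.length_sort, h]; exact i.2)]
  rfl

theorem el_mem (e : Finset ℕ) (i : ℕ) (h : i < e.card) : el e i ∈ e := by
  rw [el_eq e rfl ⟨i, h⟩]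
  exact Finset.orderEmbOfFin_mem _ _ _

theorem el_lt (e : Finset ℕ) (i j : ℕ) (hij : i < j) (h : j < e.card) : el e i < el e j := by
  rw [el_eq e rfl ⟨i, hij.trans h⟩, el_eq e rfl ⟨j, h⟩]
  exact (e.orderEmbOfFin rfl).strictMono hij

theorem el_surj (e : Finset ℕ) (x : ℕ) (hx : x ∈ e) : ∃ i < e.card, el e i = x := by
  have h : x ∈ Set.range (e.orderEmbOfFin rfl) := by
    rw [Finset.range_orderEmbOfFin]
    exact hx
  obtain ⟨i, hi⟩ := h
  exact ⟨i, i.2, by rw [el_eq e rfl i]; exact hi⟩

theorem el_unique (e : Finset ℕ) (r : ℕ) (y : ℕ → ℕ) (h : e.card = r) (hy : ∀ i < r, y i ∈ e)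
    (hm : ∀ i j, i < j → j < r → y i < y j) (i : ℕ) (hi : i < r) : el e i = y i := by
  have h1 := Finset.orderEmbOfFin_unique h (f := fun k : Fin r => y k) (fun k => hy k k.2)
    (fun a b hab => hm a b hab b.2)
  rw [el_eq e h ⟨i, hi⟩]
  exact (congrFun h1 ⟨i, hi⟩).symm

theorem inj_of {s : Finset ℕ} {g : ℕ → ℕ} (hg : ∀ x ∈ s, ∀ y ∈ s, x < y → g x < g y) {x y : ℕ}
    (hx : x ∈ s) (hy : y ∈ s) (h : g x = g y) : x = y := by
  rcases lt_trichotomy x y with h1 | h1 | h1
  · have := hg x hx y hy h1
    omega
  · exact h1
  · have := hg y hy x hx h1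
    omega

theorem card_image' {e : Finset ℕ} {g : ℕ → ℕ} (hg : ∀ x ∈ e, ∀ y ∈ e, x < y → g x < g y) :
    (e.image g).card = e.card :=
  Finset.card_image_of_injOn fun _ hx _ hy h => inj_of hg hx hy h

theorem el_image (e : Finset ℕ) (g : ℕ → ℕ) (hg : ∀ x ∈ e, ∀ y ∈ e, x < y → g x < g y) (i : ℕ)
    (hi : i < e.card) : el (e.image g) i = g (el e i) := by
  refine el_unique (e.image g) e.card (fun k => g (el e k)) (card_image' hg) ?_ ?_ i hi
  · intro k hk
    exact Finset.mem_image_of_mem _ (el_mem e k hk)
  · intro k l hkl hl
    exact hg _ (el_mem e k (hkl.trans hl)) _ (el_mem e l hl) (el_lt e k l hkl hl)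

theorem min_eq (e : Finset ℕ) (h : 0 < e.card) : e.min = WithTop.some (el e 0) := by
  have h1 : e.Nonempty := Finset.card_pos.1 h
  rw [← Finset.coe_min' h1]
  congr 1
  rw [el_eq e rfl ⟨0, h⟩, Finset.orderEmbOfFin_zero rfl h]

theorem min_le_min (e f : Finset ℕ) (he : 0 < e.card) (hf : 0 < f.card) :
    e.min ≤ f.min ↔ el e 0 ≤ el f 0 := by
  rw [min_eq e he, min_eq f hf]
  exact WithTop.coe_le_coe

/-- job el -/
theorem t_el : S_el :=
  ⟨el_mem, el_lt, el_surj, el_image, fun e r y h hy hm => el_unique e r y h hy hm, min_le_min⟩

theorem sort_image {s : Finset ℕ} {g : ℕ → ℕ} (hg : ∀ x ∈ s, ∀ y ∈ s, x < y → g x < g y) :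
    (s.image g).sort (· ≤ ·) = (s.sort (· ≤ ·)).map g := by
  have hn : ((s.sort (· ≤ ·)).map g).Nodup := by
    refine List.Nodup.map_on ?_ (Finset.sort_nodup s (· ≤ ·))
    intro x hx y hy h
    rw [Finset.mem_sort] at hx hy
    exact inj_of hg hx hy h
  have h1 : ((s.sort (· ≤ ·)).map g).toFinset = s.image g := by
    ext x
    simp
  rw [← h1, List.toFinset_sort _ hn, List.pairwise_map]
  refine List.Pairwise.imp_of_mem ?_ (Finset.pairwise_sort s (· ≤ ·))
  intro a b ha hb hab
  rw [Finset.mem_sort] at ha hb
  rcases hab.lt_or_eq with h | h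
  · exact (hg a ha b hb h).le
  · rw [h]

theorem word_image (e f : Finset ℕ) (g : ℕ → ℕ) (hg : ∀ x ∈ e ∪ f, ∀ y ∈ e ∪ f, x < y → g x < g y) :
    word (e.image g) (f.image g) = word e f := by
  unfold word
  rw [← Finset.image_union, sort_image hg, List.map_map]
  refine List.map_congr_left fun x hx => ?_
  rw [Finset.mem_sort] at hx
  have h1 : g x ∈ e.image g ↔ x ∈ e := by
    constructor
    · intro h
      obtain ⟨y, hy, hxy⟩ := Finset.mem_image.1 h
      rw [← inj_of hg (Finset.mem_union_left _ hy) hx hxy]
      exact hy
    · exact fun h => Finset.mem_image_of_mem _ h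
  simp only [Function.comp_apply, h1]

/-- job mono -/
theorem t_mono (_ : S_el) : S_mono := by
  intro e f g hg
  refine ⟨word_image e f g hg, ?_⟩
  have hg' : ∀ x ∈ f ∪ e, ∀ y ∈ f ∪ e, x < y → g x < g y := by
    rw [Finset.union_comm]
    exact hg
  have h1 : (e.image g).min ≤ (f.image g).min ↔ e.min ≤ f.min := by
    rcases e.eq_empty_or_nonempty with he | he
    · subst he
      rcases f.eq_empty_or_nonempty with hf | hf
      · subst hf
        simp
      · have h2 : ¬ (⊤ : WithTop ℕ) ≤ f.min := by
          rw [top_le_iff, Finset.min_eq_top]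
          exact hf.ne_empty
        have h3 : ¬ (⊤ : WithTop ℕ) ≤ (f.image g).min := by
          rw [top_le_iff, Finset.min_eq_top]
          exact (hf.image g).ne_empty
        simp only [Finset.image_empty, Finset.min_empty]
        exact iff_of_false h3 h2
    · rcases f.eq_empty_or_nonempty with hf | hf
      · subst hf
        simp
      · have he' := Finset.card_pos.2 he
        have hf' := Finset.card_pos.2 hf
        have ge : ∀ x ∈ e, ∀ y ∈ e, x < y → g x < g y := fun x hx y hy =>
          hg x (Finset.mem_union_left _ hx) y (Finset.mem_union_left _ hy)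
        have gf : ∀ x ∈ f, ∀ y ∈ f, x < y → g x < g y := fun x hx y hy =>
          hg x (Finset.mem_union_right _ hx) y (Finset.mem_union_right _ hy)
        rw [min_le_min _ _ (by rw [card_image' ge]; exact he') (by rw [card_image' gf]; exact hf'),
          min_le_min _ _ he' hf', el_image e g ge 0 he', el_image f g gf 0 hf']
        have m1 := Finset.mem_union_left f (el_mem e 0 he')
        have m2 := Finset.mem_union_right e (el_mem f 0 hf')
        constructor
        · intro h
          by_contra h2
          have := hg _ m2 _ m1 (not_le.1 h2)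
          omega
        · intro h
          rcases h.lt_or_eq with h2 | h2
          · exact (hg _ m1 _ m2 h2).le
          · rw [h2]
  unfold pattern
  simp only [h1, word_image e f g hg, word_image f e g hg']

/-! ### Counting letters -/

theorem card_lt_el (e : Finset ℕ) (i : ℕ) (h : i < e.card) : (e.filter (· < el e i)).card = i := by
  have h1 : e.filter (· < el e i) = (range i).image (el e) := by
    ext x
    rw [Finset.mem_filter, Finset.mem_image]
    constructor
    · rintro ⟨hx, hlt⟩
      obtain ⟨k, hk, rfl⟩ := el_surj e x hx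
      refine ⟨k, ?_, rfl⟩
      rw [Finset.mem_range]
      by_contra hki
      rcases (not_lt.1 hki).lt_or_eq with h2 | h2
      · have := el_lt e i k h2 hk
        omega
      · rw [h2] at hlt
        exact lt_irrefl _ hlt
    · rintro ⟨k, hk, rfl⟩
      rw [Finset.mem_range] at hk
      exact ⟨el_mem e k (hk.trans h), el_lt e k i hk h⟩
  rw [h1, Finset.card_image_of_injOn, Finset.card_range]
  intro a ha b hb hab
  rw [Finset.mem_coe, Finset.mem_range] at ha hb
  rcases lt_trichotomy a b with h2 | h2 | h2
  · have := el_lt e a b h2 (hb.trans h)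
    omega
  · exact h2
  · have := el_lt e b a h2 (ha.trans h)
    omega

theorem lt_card_iff (e : Finset ℕ) (i z : ℕ) (h : i < e.card) :
    i < (e.filter (· < z)).card ↔ el e i < z := by
  constructor
  · intro h1
    by_contra h2
    have h3 : e.filter (· < z) ⊆ e.filter (· < el e i) := by
      intro x hx
      rw [Finset.mem_filter] at hx ⊢
      exact ⟨hx.1, by omega⟩
    have := Finset.card_le_card h3
    rw [card_lt_el e i h] at this
    omega
  · intro h1
    have h3 : insert (el e i) (e.filter (· < el e i)) ⊆ e.filter (· < z) := by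
      intro x hx
      rw [Finset.mem_insert, Finset.mem_filter] at hx
      rw [Finset.mem_filter]
      rcases hx with rfl | hx
      · exact ⟨el_mem e i h, h1⟩
      · exact ⟨hx.1, by omega⟩
    have := Finset.card_le_card h3
    rw [Finset.card_insert_of_notMem (by simp), card_lt_el e i h] at this
    omega

theorem sort_take (s : Finset ℕ) (z : ℕ) :
    (s.sort (· ≤ ·)).take (s.filter (· < z)).card = (s.filter (· < z)).sort (· ≤ ·) := by
  have h0 : ((s.filter (· < z)).sort (· ≤ ·) ++ (s.filter (fun x => ¬ x < z)).sort (· ≤ ·)).Nodup := by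
    rw [List.nodup_append]
    refine ⟨Finset.sort_nodup _ _, Finset.sort_nodup _ _, ?_⟩
    intro a ha b hb
    rw [Finset.mem_sort, Finset.mem_filter] at ha hb
    rintro rfl
    exact hb.2 ha.2
  have h1 : s.sort (· ≤ ·) =
      (s.filter (· < z)).sort (· ≤ ·) ++ (s.filter (fun x => ¬ x < z)).sort (· ≤ ·) := by
    have h2 : ((s.filter (· < z)).sort (· ≤ ·) ++
        (s.filter (fun x => ¬ x < z)).sort (· ≤ ·)).toFinset = s := by
      rw [List.toFinset_append, Finset.sort_toFinset, Finset.sort_toFinset,
        Finset.filter_union_filter_not_eq]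
    have h3 := (List.toFinset_sort (· ≤ ·) h0).2 (by
      rw [List.pairwise_append]
      refine ⟨Finset.pairwise_sort _ _, Finset.pairwise_sort _ _, ?_⟩
      intro a ha b hb
      rw [Finset.mem_sort, Finset.mem_filter] at ha hb
      have := ha.2
      have := hb.2
      omega)
    rw [h2] at h3
    exact h3
  rw [h1]
  have h4 : (s.filter (· < z)).card = ((s.filter (· < z)).sort (· ≤ ·)).length := by
    rw [Finset.length_sort]
  rw [h4, List.take_left']
  rfl

theorem count_map_sort (s : Finset ℕ) (p : ℕ → Prop) [DecidablePred p] (c : Letter) (φ : ℕ → Letter)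
    (h : ∀ x ∈ s, (φ x = c ↔ p x)) : ((s.sort (· ≤ ·)).map φ).count c = (s.filter p).card := by
  have h1 : ((s.sort (· ≤ ·)).map φ).count c = Multiset.count c (s.1.map φ) := by
    rw [← Finset.sort_eq s (· ≤ ·), Multiset.map_coe, Multiset.coe_count]
  rw [h1, Multiset.count_map]
  have h2 : s.1.filter (fun x => c = φ x) = s.1.filter p := by
    refine Multiset.filter_congr fun x hx => ?_
    rw [← h x hx, eq_comm]
  rw [h2]
  rfl

theorem count_take (e f : Finset ℕ) (hd : Disjoint e f) (z : ℕ) :
    ((word e f).take ((e.filter (· < z)).card + (f.filter (· < z)).card)).count Letter.A =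
      (e.filter (· < z)).card ∧
    ((word e f).take ((e.filter (· < z)).card + (f.filter (· < z)).card)).count Letter.B =
      (f.filter (· < z)).card := by
  have h1 : (e.filter (· < z)).card + (f.filter (· < z)).card = ((e ∪ f).filter (· < z)).card := by
    rw [Finset.filter_union, Finset.card_union_of_disjoint]
    exact Finset.disjoint_filter_filter hd
  have h2 : (word e f).take ((e.filter (· < z)).card + (f.filter (· < z)).card) =
      (((e ∪ f).filter (· < z)).sort (· ≤ ·)).map (fun x => if x ∈ e then Letter.A else Letter.B) := by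
    rw [h1]
    unfold word
    rw [← List.map_take, sort_take]
  rw [h2]
  constructor
  · rw [count_map_sort _ (· ∈ e)]
    · congr 1
      ext x
      simp only [Finset.mem_filter, Finset.mem_union]
      tauto
    · intro x _
      by_cases hx : x ∈ e <;> simp [hx]
  · rw [count_map_sort _ (· ∉ e)]
    · congr 1
      ext x
      simp only [Finset.mem_filter, Finset.mem_union]
      have : x ∈ e → x ∉ f := fun h1 h2 => Finset.disjoint_left.1 hd h1 h2
      tauto
    · intro x _
      by_cases hx : x ∈ e <;> simp [hx]

theorem count_take_mono (P : List Letter) (c : Letter) {s t : ℕ} (h : s ≤ t) :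
    (P.take s).count c ≤ (P.take t).count c :=
  (List.take_sublist_take_left h).count_le c

/-- the number of the letters before the `j`-th letter of the other set -/
theorem card_eq_of_word {r : ℕ} {e f e' f' : Finset ℕ} (hf : f.card = r) (hf' : f'.card = r)
    (hd : Disjoint e f) (hd' : Disjoint e' f') (hw : word e f = word e' f') {j : ℕ} (hj : j < r) :
    (e'.filter (· < el f' j)).card ≤ (e.filter (· < el f j)).card := by
  by_contra hlt
  rw [not_le] at hlt
  have c1 := (count_take e f hd (el f j + 1)).2
  have c2 := (count_take e' f' hd' (el f' j)).2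
  have n1 : e.filter (· < el f j + 1) = e.filter (· < el f j) := by
    ext x
    simp only [Finset.mem_filter]
    have : x ∈ e → x ≠ el f j := fun hx h => Finset.disjoint_left.1 hd hx
      (h ▸ el_mem f j (by omega))
    constructor
    · rintro ⟨hx, h⟩
      have := this hx
      exact ⟨hx, by omega⟩
    · rintro ⟨hx, h⟩
      exact ⟨hx, by omega⟩
  have n2 : (f.filter (· < el f j + 1)).card = j + 1 := by
    have h1 : j < (f.filter (· < el f j + 1)).card := (lt_card_iff f j _ (by omega)).2 (by omega)
    have h2 : (f.filter (· < el f j + 1)).card ≤ (insert (el f j) (f.filter (· < el f j))).card := by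
      refine Finset.card_le_card fun x hx => ?_
      rw [Finset.mem_filter] at hx
      rw [Finset.mem_insert, Finset.mem_filter]
      by_cases hx' : x = el f j
      · exact Or.inl hx'
      · exact Or.inr ⟨hx.1, by omega⟩
    have h3 := Finset.card_insert_le (el f j) (f.filter (· < el f j))
    rw [card_lt_el f j (by omega)] at h3
    omega
  rw [n1, n2] at c1
  rw [card_lt_el f' j (by omega)] at c2
  have c3 := count_take_mono (word e f) Letter.B
    (show (e.filter (· < el f j)).card + (j + 1) ≤ (e'.filter (· < el f' j)).card + j by omega)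
  rw [c1, hw, c2] at c3
  omega

/-- job word -/
theorem t_word (_ : S_el) (_ : S_mono) : S_word := by
  intro r e f e' f' he hf he' hf' hd hd'
  constructor
  · intro hw i hi j hj
    have h1 := card_eq_of_word hf hf' hd hd' hw hj
    have h2 := card_eq_of_word hf' hf hd' hd hw.symm hj
    rw [← lt_card_iff e i _ (by omega), ← lt_card_iff e' i _ (by omega)]
    omega
  · intro h
    -- the increasing bijection
    obtain ⟨g, hg⟩ : ∃ g : ℕ → ℕ, g = fun x => if x ∈ e then el e' (e.filter (· < x)).card else
      el f' (f.filter (· < x)).card := ⟨_, rfl⟩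
    have ge : ∀ i < r, g (el e i) = el e' i := by
      intro i hi
      have hm : el e i ∈ e := el_mem e i (by omega)
      rw [hg]
      simp only [hm, if_true]
      rw [card_lt_el e i (by omega)]
    have gf : ∀ j < r, g (el f j) = el f' j := by
      intro j hj
      have hm : el f j ∉ e := fun h' => Finset.disjoint_left.1 hd h' (el_mem f j (by omega))
      rw [hg]
      simp only [hm, if_false]
      rw [card_lt_el f j (by omega)]
    have hmono : ∀ x ∈ e ∪ f, ∀ y ∈ e ∪ f, x < y → g x < g y := by
      have incr : ∀ (s s' : Finset ℕ) (i k : ℕ), s.card = r → s'.card = r → i < r → k < r →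
          el s i < el s k → el s' i < el s' k := by
        intro s s' i k hs hs' hi hk hlt
        have : i < k := by
          by_contra hik
          rcases (not_lt.1 hik).lt_or_eq with h2 | h2
          · have := el_lt s k i h2 (by omega)
            omega
          · rw [h2] at hlt
            exact lt_irrefl _ hlt
        exact el_lt s' i k this (by omega)
      intro x hx y hy hxy
      rw [Finset.mem_union] at hx hy
      rcases hx with hx | hx <;> rcases hy with hy | hy
      · obtain ⟨i, hi, rfl⟩ := el_surj e x hx
        obtain ⟨k, hk, rfl⟩ := el_surj e y hy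
        rw [ge i (by omega), ge k (by omega)]
        exact incr e e' i k he he' (by omega) (by omega) hxy
      · obtain ⟨i, hi, rfl⟩ := el_surj e x hx
        obtain ⟨k, hk, rfl⟩ := el_surj f y hy
        rw [ge i (by omega), gf k (by omega)]
        exact (h i (by omega) k (by omega)).1 hxy
      · obtain ⟨k, hk, rfl⟩ := el_surj f x hx
        obtain ⟨i, hi, rfl⟩ := el_surj e y hy
        rw [ge i (by omega), gf k (by omega)]
        have h2 : ¬ el e' i < el f' k := fun h3 => by
          have := (h i (by omega) k (by omega)).2 h3
          omega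
        have h3 : el e' i ≠ el f' k := fun h4 => Finset.disjoint_left.1 hd'
          (el_mem e' i (by omega)) (h4 ▸ el_mem f' k (by omega))
        omega
      · obtain ⟨i, hi, rfl⟩ := el_surj f x hx
        obtain ⟨k, hk, rfl⟩ := el_surj f y hy
        rw [gf i (by omega), gf k (by omega)]
        exact incr f f' i k hf hf' (by omega) (by omega) hxy
    have ie : e.image g = e' := by
      ext x
      rw [Finset.mem_image]
      constructor
      · rintro ⟨y, hy, rfl⟩
        obtain ⟨i, hi, rfl⟩ := el_surj e y hy
        rw [ge i (by omega)]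
        exact el_mem e' i (by omega)
      · intro hx
        obtain ⟨i, hi, rfl⟩ := el_surj e' x hx
        exact ⟨el e i, el_mem e i (by omega), ge i (by omega)⟩
    have jf : f.image g = f' := by
      ext x
      rw [Finset.mem_image]
      constructor
      · rintro ⟨y, hy, rfl⟩
        obtain ⟨i, hi, rfl⟩ := el_surj f y hy
        rw [gf i (by omega)]
        exact el_mem f' i (by omega)
      · intro hx
        obtain ⟨i, hi, rfl⟩ := el_surj f' x hx
        exact ⟨el f i, el_mem f i (by omega), gf i (by omega)⟩
    have := word_image e f g hmono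
    rw [ie, jf] at this
    exact this.symm

theorem count_add (P : List Letter) : P.count Letter.A + P.count Letter.B = P.length := by
  induction P with
  | nil => rfl
  | cons a P ih =>
    cases a
    · rw [List.count_cons_self, List.count_cons_of_ne (by decide), List.length_cons]
      omega
    · rw [List.count_cons_self, List.count_cons_of_ne (by decide), List.length_cons]
      omega

theorem word_length (r : ℕ) (e f : Finset ℕ) (he : e.card = r) (hf : f.card = r)
    (hd : Disjoint e f) : (word e f).length = 2 * r := by
  unfold word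
  rw [List.length_map, Finset.length_sort, Finset.card_union_of_disjoint hd]
  omega

/-- if the word is balanced at `i` then the first elements of `e` come before the last ones of `f` -/
theorem bal_lt (r : ℕ) (e f : Finset ℕ) (he : e.card = r) (hf : f.card = r) (hd : Disjoint e f)
    (i : ℕ) (hi0 : 0 < i) (hir : i < r)
    (hA : ((word e f).take (2 * i)).count Letter.A = i)
    (hB : ((word e f).take (2 * i)).count Letter.B = i) :
    el e (i - 1) < el f i ∧ el f (i - 1) < el e i := by
  constructor
  · by_contra hlt
    have c1 := (count_take e f hd (el f i + 1)).2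
    have h1 : ¬ i - 1 < (e.filter (· < el f i + 1)).card := by
      rw [lt_card_iff e (i - 1) _ (by omega)]
      intro h2
      have h3 : el e (i - 1) ≠ el f i := fun h4 => Finset.disjoint_left.1 hd
        (el_mem e (i - 1) (by omega)) (h4 ▸ el_mem f i (by omega))
      omega
    have h2 : i < (f.filter (· < el f i + 1)).card := (lt_card_iff f i _ (by omega)).2 (by omega)
    have h3 : (f.filter (· < el f i + 1)).card ≤ (insert (el f i) (f.filter (· < el f i))).card := by
      refine Finset.card_le_card fun x hx => ?_
      rw [Finset.mem_filter] at hx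
      rw [Finset.mem_insert, Finset.mem_filter]
      by_cases hx' : x = el f i
      · exact Or.inl hx'
      · exact Or.inr ⟨hx.1, by omega⟩
    have h4 := Finset.card_insert_le (el f i) (f.filter (· < el f i))
    rw [card_lt_el f i (by omega)] at h4
    have h5 := count_take_mono (word e f) Letter.B
      (show (e.filter (· < el f i + 1)).card + (f.filter (· < el f i + 1)).card ≤ 2 * i by omega)
    rw [c1, hB] at h5
    omega
  · by_contra hlt
    have c1 := (count_take e f hd (el e i + 1)).1
    have h1 : ¬ i - 1 < (f.filter (· < el e i + 1)).card := by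
      rw [lt_card_iff f (i - 1) _ (by omega)]
      intro h2
      have h3 : el f (i - 1) ≠ el e i := fun h4 => Finset.disjoint_left.1 hd
        (el_mem e i (by omega)) (h4 ▸ el_mem f (i - 1) (by omega))
      omega
    have h2 : i < (e.filter (· < el e i + 1)).card := (lt_card_iff e i _ (by omega)).2 (by omega)
    have h3 : (e.filter (· < el e i + 1)).card ≤ (insert (el e i) (e.filter (· < el e i))).card := by
      refine Finset.card_le_card fun x hx => ?_
      rw [Finset.mem_filter] at hx
      rw [Finset.mem_insert, Finset.mem_filter]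
      by_cases hx' : x = el e i
      · exact Or.inl hx'
      · exact Or.inr ⟨hx.1, by omega⟩
    have h4 := Finset.card_insert_le (el e i) (e.filter (· < el e i))
    rw [card_lt_el e i (by omega)] at h4
    have h5 := count_take_mono (word e f) Letter.A
      (show (e.filter (· < el e i + 1)).card + (f.filter (· < el e i + 1)).card ≤ 2 * i by omega)
    rw [c1, hA] at h5
    omega

/-- job bal -/
theorem t_bal (_ : S_el) : S_bal := by
  intro r e f he hf hd
  have hlen := word_length r e f he hf hd
  have hcA : (word e f).count Letter.A = r := by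
    unfold word
    rw [count_map_sort _ (· ∈ e)]
    · rw [← he]
      congr 1
      ext x
      simp only [Finset.mem_filter, Finset.mem_union]
      tauto
    · intro x _
      by_cases hx : x ∈ e <;> simp [hx]
  have hcB : (word e f).count Letter.B = r := by
    have := count_add (word e f)
    omega
  refine ⟨hlen, hcA, hcB, fun i hi0 hir => ?_⟩
  constructor
  · intro hb
    unfold Bal at hb
    have h1 := count_add ((word e f).take (2 * i))
    rw [List.length_take, hlen] at h1
    exact bal_lt r e f he hf hd i hi0 hir hb (by omega)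
  · rintro ⟨h1, h2⟩
    have h3 : el e (i - 1) < el e i := el_lt e _ _ (by omega) (by omega)
    have h4 : el f (i - 1) < el f i := el_lt f _ _ (by omega) (by omega)
    obtain ⟨z, hz1, hz2, hz3, hz4⟩ : ∃ z, el e (i - 1) < z ∧ el f (i - 1) < z ∧ z ≤ el e i ∧ z ≤ el f i :=
      ⟨max (el e (i - 1)) (el f (i - 1)) + 1, by omega, by omega, by omega, by omega⟩
    have n1 : (e.filter (· < z)).card = i := by
      have a1 := (lt_card_iff e (i - 1) z (by omega)).2 hz1
      have a2 := (lt_card_iff e i z (by omega)).not.2 (by omega)
      omega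
    have n2 : (f.filter (· < z)).card = i := by
      have a1 := (lt_card_iff f (i - 1) z (by omega)).2 hz2
      have a2 := (lt_card_iff f i z (by omega)).not.2 (by omega)
      omega
    have h5 := (count_take e f hd z).1
    rw [n1, n2] at h5
    unfold Bal
    rw [two_mul]
    exact h5

end Pool.Agent.Q149.OM
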